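import Pool.Agent.TH958.BV.Defs

/-!
# Windows of the edge: definitions

The definitions of `IsFrobenius`, `IsEulerSystem`, `localFactor`, `LFun`, `edgePoint` and `angle` are in
`Pool/Agent/TH958/BV/Defs.lean`.
-/

set_option autoImplicit false

namespace Pool.Agent.U597.EW

open NumberField IsDedekindDomain MeasureTheory Filter Topology Polynomial Set
open Pool.Agent.TH958.BV

/-- The Euler factor at the prime `v` of `K` is the one given by the eigenvalues of Frobenius. -/
def Good {K : Type} [Field K] [NumberField K] {n : ℕ} (X : Set (MvPolynomial (Fin n) (𝓞 K)))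
    (d i N : ℕ) (B : HeightOneSpectrum (𝓞 K) → ℂ[X]) (v : HeightOneSpectrum (𝓞 K)) : Prop :=
  ∃ α : Fin N → ℂ, IsFrobenius X d i v α ∧ ∀ z : ℂ, (B v).eval z = ∏ j, (1 - α j * z)

/-- The product of the Euler factors at the primes of `K` above the prime number `p`. -/
noncomputable def above {K : Type} [Field K] [NumberField K]
    (B : HeightOneSpectrum (𝓞 K) → ℂ[X]) (p : Nat.Primes) (s : ℂ) : ℂ :=
  ∏ᶠ (v : HeightOneSpectrum (𝓞 K)) (_ : ((p : ℕ) : 𝓞 K) ∈ v.asIdeal), localFactor B v s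

/-- `∑ c_j log |l_j(u)|`, the logarithm of `∏ |l_j(u)|^{c_j}`. -/
noncomputable def logModulus {ι : Type} [Fintype ι] (c : ι → ℝ) (l : ι → ℝ → ℂ) (u : ℝ) : ℝ :=
  ∑ j, c j * Real.log ‖l j u‖

/-- For every `ε > 0` there are arbitrarily long windows (intervals) `[t, t + T]` in which `Φ` is, with
mean error at most `ε`, a sum of measurable functions `h_p`, `p ∈ S`, where `h_p` has the period
`2π / log p` of the Euler factors above `p` (for example `h_p = 0`).  The functions may depend on the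
window. -/
def Windows (S : Finset Nat.Primes) (Φ : ℝ → ℝ) : Prop :=
  ∀ ε : ℝ, 0 < ε → ∀ R : ℝ, ∃ t T : ℝ, R ≤ T ∧ 0 < T ∧ ∃ h : Nat.Primes → ℝ → ℝ,
    (∀ p ∈ S, Measurable (h p) ∧ Function.Periodic (h p) (2 * Real.pi / Real.log (p : ℕ))) ∧
    ∫⁻ u in Icc t (t + T), ENNReal.ofReal |Φ u - ∑ p ∈ S, h p u| ≤ ENNReal.ofReal (ε * T)

/-- `Φ` is almost everywhere on the real line a sum of measurable functions `h_p`, `p ∈ S`, where `h_p`
has the period `2π / log p`. -/
def Everywhere (S : Finset Nat.Primes) (Φ : ℝ → ℝ) : Prop :=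
  ∃ h : Nat.Primes → ℝ → ℝ,
    (∀ p ∈ S, Measurable (h p) ∧ Function.Periodic (h p) (2 * Real.pi / Real.log (p : ℕ))) ∧
    ∀ᵐ u : ℝ, Φ u = ∑ p ∈ S, h p u

/-- The L-function `L(s + i/2)` (in the variable in which the edge is `Re s = 1`) continues to a function
which is meromorphic at all points of `U`. -/
def Continues {K : Type} [Field K] [NumberField K] (B : HeightOneSpectrum (𝓞 K) → ℂ[X]) (i : ℕ)
    (U : Set ℂ) : Prop :=
  ∃ Λ : ℂ → ℂ, (∀ s ∈ U, MeromorphicAt Λ s) ∧
    ∀ s : ℂ, 1 < s.re → Λ s = LFun B (s + (i : ℂ) / 2)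

end Pool.Agent.U597.EW
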