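import Pool.Agent.N881.RP.B

/-!
# Iterated differences of trigonometric polynomials
-/

set_option autoImplicit false

namespace Pool.Agent.U597.EW

open Complex MeasureTheory Filter Topology Set
open Pool.Agent.TH339.MP Pool.Agent.N881.RP
open scoped ComplexConjugate

/-- the iterated difference with the steps of the list -/
noncomputable def dif {E : Type} [AddCommGroup E] : List ℝ → (ℝ → E) → ℝ → E
  | [], f => f
  | a :: L, f => fun u => dif L f (u + a) - dif L f u

lemma dif_sub {E : Type} [AddCommGroup E] (L : List ℝ) (f g : ℝ → E) :
    dif L (fun u => f u - g u) = fun u => dif L f u - dif L g u := by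
  induction L with
  | nil => rfl
  | cons a L ih =>
    funext u
    simp only [dif, ih]
    abel

lemma dif_add {E : Type} [AddCommGroup E] (L : List ℝ) (f g : ℝ → E) :
    dif L (fun u => f u + g u) = fun u => dif L f u + dif L g u := by
  induction L with
  | nil => rfl
  | cons a L ih =>
    funext u
    simp only [dif, ih]
    abel

lemma dif_zero {E : Type} [AddCommGroup E] (L : List ℝ) :
    dif L (fun _ => (0 : E)) = fun _ => 0 := by
  induction L with
  | nil => rfl
  | cons a L ih =>
    funext u
    simp only [dif, ih, sub_zero]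

lemma dif_sum {E ι : Type} [AddCommGroup E] (L : List ℝ) (s : Finset ι) (f : ι → ℝ → E) :
    dif L (fun u => ∑ i ∈ s, f i u) = fun u => ∑ i ∈ s, dif L (f i) u := by
  classical
  induction s using Finset.induction_on with
  | empty => simp only [Finset.sum_empty]; exact dif_zero L
  | insert i s hi ih =>
    simp only [Finset.sum_insert hi]
    rw [dif_add, ih]

lemma dif_shift {E : Type} [AddCommGroup E] (L : List ℝ) {f : ℝ → E} {a : ℝ}
    (hf : ∀ u, f (u + a) = f u) (u : ℝ) : dif L f (u + a) = dif L f u := by
  induction L generalizing u with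
  | nil => exact hf u
  | cons b L ih =>
    simp only [dif]
    rw [ih u, show u + a + b = u + b + a by ring, ih (u + b)]

lemma dif_periodic {E : Type} [AddCommGroup E] {L : List ℝ} {f : ℝ → E} {a : ℝ} (ha : a ∈ L)
    (hf : ∀ u, f (u + a) = f u) : dif L f = fun _ => 0 := by
  induction L with
  | nil => simp at ha
  | cons b L ih =>
    rcases List.mem_cons.1 ha with h | h
    · subst h
      funext u
      simp only [dif]
      rw [dif_shift L hf u, sub_self]
    · funext u
      simp only [dif]
      rw [ih h, sub_self]

/-- the multiplier -/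
noncomputable def ka (L : List ℝ) (m : ℝ) : ℂ := (L.map fun a => ee m a - 1).prod

lemma dif_ee (L : List ℝ) (c : ℂ) (m : ℝ) :
    dif L (fun u => c * ee m u) = fun u => c * ka L m * ee m u := by
  induction L with
  | nil =>
    funext u
    simp [dif, ka]
  | cons a L ih =>
    funext u
    simp only [dif]
    rw [ih]
    simp only [ka, List.map_cons, List.prod_cons]
    rw [ee_add]
    ring

lemma dif_ofReal (L : List ℝ) (f : ℝ → ℝ) (u : ℝ) :
    ((dif L f u : ℝ) : ℂ) = dif L (fun u => (f u : ℂ)) u := by
  induction L generalizing u with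
  | nil => rfl
  | cons a L ih =>
    simp only [dif]
    rw [Complex.ofReal_sub, ih, ih]

/-- the total length of the steps -/
noncomputable def len (L : List ℝ) : ℝ := L.sum

lemma aem_dif {L : List ℝ} {f : ℝ → ℝ} (hf : AEMeasurable f) : AEMeasurable (dif L f) := by
  induction L with
  | nil => exact hf
  | cons a L ih =>
    have h1 : AEMeasurable (fun u => dif L f (u + a)) :=
      ih.comp_quasiMeasurePreserving (measurePreserving_add_right volume a).quasiMeasurePreserving
    exact h1.sub ih

lemma dif_lint {L : List ℝ} (hL : ∀ a ∈ L, 0 ≤ a) {f : ℝ → ℝ} (hf : AEMeasurable f) (t T : ℝ) :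
    ∫⁻ u in Icc t (t + T), ENNReal.ofReal |dif L f u| ≤
      2 ^ L.length * ∫⁻ u in Icc t (t + T + len L), ENNReal.ofReal |f u| := by
  induction L generalizing t T with
  | nil => simp [dif, len]
  | cons a L ih =>
    have ha : 0 ≤ a := hL a (List.mem_cons_self ..)
    have hL' : ∀ b ∈ L, 0 ≤ b := fun b hb => hL b (List.mem_cons_of_mem _ hb)
    have hlen : 0 ≤ len L := List.sum_nonneg hL'
    have hm : AEMeasurable (dif L f) := aem_dif hf
    have h0 : ∀ u, ENNReal.ofReal |dif (a :: L) f u| ≤
        ENNReal.ofReal |dif L f (u + a)| + ENNReal.ofReal |dif L f u| := by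
      intro u
      rw [← ENNReal.ofReal_add (abs_nonneg _) (abs_nonneg _)]
      refine ENNReal.ofReal_le_ofReal ?_
      simp only [dif]
      exact abs_sub _ _
    have h1 : ∫⁻ u in Icc t (t + T), ENNReal.ofReal |dif L f (u + a)| ≤
        2 ^ L.length * ∫⁻ u in Icc t (t + T + len (a :: L)), ENNReal.ofReal |f u| := by
      have h2 : ∫⁻ u in Icc t (t + T), ENNReal.ofReal |dif L f (u + a)| =
          ∫⁻ u in Icc (t + a) (t + a + T), ENNReal.ofReal |dif L f u| := by
        have h3 := (measurePreserving_add_right volume a).setLIntegral_comp_preimage_emb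
          (MeasurableEquiv.addRight a).measurableEmbedding
          (fun u => ENNReal.ofReal |dif L f u|) (Icc (t + a) (t + a + T))
        have h4 : (fun u : ℝ => u + a) ⁻¹' Icc (t + a) (t + a + T) = Icc t (t + T) := by
          ext u
          simp only [mem_preimage, mem_Icc]
          constructor
          · rintro ⟨h1, h2⟩
            constructor <;> linarith
          · rintro ⟨h1, h2⟩
            constructor <;> linarith
        rw [h4] at h3
        exact h3
      rw [h2]
      refine (ih hL' (t + a) T).trans (mul_le_mul' le_rfl (lintegral_mono_set ?_))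
      refine Icc_subset_Icc (by linarith) ?_
      simp only [len, List.sum_cons]
      linarith
    have h2 : ∫⁻ u in Icc t (t + T), ENNReal.ofReal |dif L f u| ≤
        2 ^ L.length * ∫⁻ u in Icc t (t + T + len (a :: L)), ENNReal.ofReal |f u| := by
      refine (ih hL' t T).trans (mul_le_mul' le_rfl (lintegral_mono_set ?_))
      refine Icc_subset_Icc le_rfl ?_
      simp only [len, List.sum_cons]
      linarith
    calc ∫⁻ u in Icc t (t + T), ENNReal.ofReal |dif (a :: L) f u|
        ≤ ∫⁻ u in Icc t (t + T), (ENNReal.ofReal |dif L f (u + a)| +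
            ENNReal.ofReal |dif L f u|) := lintegral_mono h0
      _ = (∫⁻ u in Icc t (t + T), ENNReal.ofReal |dif L f (u + a)|) +
            ∫⁻ u in Icc t (t + T), ENNReal.ofReal |dif L f u| := by
          refine lintegral_add_right' _ ?_
          exact (ENNReal.measurable_ofReal.comp_aemeasurable
            (measurable_norm.comp_aemeasurable hm)).restrict
      _ ≤ _ := add_le_add h1 h2
      _ = _ := by
          rw [List.length_cons, pow_succ]
          ring

end Pool.Agent.U597.EW
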