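import Pool.Agent.U597.EW.Loc

/-!
# Families of L-functions of varieties and the windows of the edge
-/

set_option autoImplicit false

namespace Pool.Agent.U597.EW

open Complex MeasureTheory Filter Topology Set NumberField IsDedekindDomain Polynomial
open Pool.Agent.TH339.MP Pool.Agent.N881.RP Pool.Agent.R409.EV
open Pool.Agent.TH958.BV (IsEulerSystem localFactor LFun edgePoint angle)

variable {ι : Type} [Fintype ι]

section abstract_part

variable (bf : ι → PP → ℂ) (c : ι → ℝ)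

/-- the coefficients of the combination -/
noncomputable def comb (x : PP) : ℂ := ∑ j, (c j : ℂ) * bf j x

lemma PS_comb (X : ℕ) (u : ℝ) : PS (comb bf c) X u = ∑ j, (c j : ℂ) * PS (bf j) X u := by
  unfold PS comb
  simp_rw [Finset.mul_sum, Finset.sum_mul]
  rw [Finset.sum_comm]
  refine Finset.sum_congr rfl fun j _ => Finset.sum_congr rfl fun x _ => ?_
  ring

lemma re_PS_comb (X : ℕ) (u : ℝ) : (PS (comb bf c) X u).re = ∑ j, c j * (PS (bf j) X u).re := by
  rw [PS_comb, Complex.re_sum]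
  refine Finset.sum_congr rfl fun j _ => ?_
  rw [Complex.re_ofReal_mul]

/-- the boundary function of the logarithm of the modulus of the product -/
noncomputable def Phi0 (u : ℝ) : ℝ := ∑ j, c j * (bl (bf j) u).re

variable {bf} {M : ι → ℝ}

lemma aem_Phi0 (hb : ∀ j x, ‖bf j x‖ ≤ M j / (x.2 + 1 : ℕ)) : AEMeasurable (Phi0 bf c) := by
  unfold Phi0
  refine Finset.aemeasurable_fun_sum _ fun j _ => ?_
  exact (Complex.measurable_re.comp_aemeasurable (boundary (hb j)).1).const_mul (c j)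

lemma approx_one {b : PP → ℂ} {M : ℝ} (hb : ∀ x, ‖b x‖ ≤ M / (x.2 + 1 : ℕ)) (ε : ℝ) (hε : 0 < ε) :
    ∃ X0 : ℕ, ∀ X : ℕ, X0 ≤ X → ∀ t : ℝ,
      ∫⁻ u in Icc t (t + 1), ENNReal.ofReal ‖bl b u - PS b X u‖ ≤ ENNReal.ofReal ε := by
  have hlog : Tendsto (fun X : ℕ => 64800 * M ^ 2 / Real.log X / (2 * ε)) atTop (𝓝 0) := by
    have h2 : Tendsto (fun X : ℕ => Real.log X) atTop atTop :=
      Real.tendsto_log_atTop.comp tendsto_natCast_atTop_atTop
    have h3 := (Tendsto.const_div_atTop h2 (64800 * M ^ 2)).div_const (2 * ε)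
    rwa [zero_div] at h3
  obtain ⟨X0, hX0⟩ := (Metric.tendsto_atTop.1 hlog) (ε / 2) (by positivity)
  refine ⟨max 2 X0, fun X hX t => ?_⟩
  have hX2 : 2 ≤ X := (le_max_left _ _).trans hX
  refine (lint_norm hb hX2 t (η := ε) hε).trans (ENNReal.ofReal_le_ofReal ?_)
  have h4 := hX0 X ((le_max_right _ _).trans hX)
  rw [Real.dist_eq, sub_zero] at h4
  have h5 := (le_abs_self _).trans_lt h4
  linarith

lemma approx (hb : ∀ j x, ‖bf j x‖ ≤ M j / (x.2 + 1 : ℕ)) (ε : ℝ) (hε : 0 < ε) :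
    ∃ X0 : ℕ, ∀ X : ℕ, X0 ≤ X → ∀ t : ℝ,
      ∫⁻ u in Icc t (t + 1), ENNReal.ofReal |Phi0 bf c u - (PS (comb bf c) X u).re| ≤
        ENNReal.ofReal ε := by
  classical
  set A : ℝ := ∑ j, |c j| with hA
  have hA0 : 0 ≤ A := Finset.sum_nonneg fun j _ => abs_nonneg _
  have h1 : ∀ j, ∃ X0 : ℕ, ∀ X : ℕ, X0 ≤ X → ∀ t : ℝ,
      ∫⁻ u in Icc t (t + 1), ENNReal.ofReal ‖bl (bf j) u - PS (bf j) X u‖ ≤
        ENNReal.ofReal (ε / (A + 1)) := fun j => approx_one (hb j) _ (by positivity)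
  choose X0 hX0 using h1
  refine ⟨Finset.univ.sup X0, fun X hX t => ?_⟩
  have h2 : ∀ u, ENNReal.ofReal |Phi0 bf c u - (PS (comb bf c) X u).re| ≤
      ∑ j, ENNReal.ofReal |c j| * ENNReal.ofReal ‖bl (bf j) u - PS (bf j) X u‖ := by
    intro u
    simp_rw [← ENNReal.ofReal_mul (abs_nonneg (c _))]
    rw [← ENNReal.ofReal_sum_of_nonneg (fun j _ => by positivity)]
    refine ENNReal.ofReal_le_ofReal ?_
    rw [re_PS_comb]
    unfold Phi0
    rw [← Finset.sum_sub_distrib]
    refine (Finset.abs_sum_le_sum_abs _ _).trans (Finset.sum_le_sum fun j _ => ?_)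
    rw [← mul_sub, abs_mul, ← Complex.sub_re]
    exact mul_le_mul_of_nonneg_left (Complex.abs_re_le_norm _) (abs_nonneg _)
  have hm : ∀ j, AEMeasurable (fun u => ENNReal.ofReal |c j| *
      ENNReal.ofReal ‖bl (bf j) u - PS (bf j) X u‖) (volume.restrict (Icc t (t + 1))) := by
    intro j
    refine AEMeasurable.const_mul ?_ _
    refine AEMeasurable.restrict ?_
    exact ((((boundary (hb j)).1.sub (continuous_PS (bf j) X).measurable.aemeasurable).norm)).ennreal_ofReal
  calc ∫⁻ u in Icc t (t + 1), ENNReal.ofReal |Phi0 bf c u - (PS (comb bf c) X u).re|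
      ≤ ∫⁻ u in Icc t (t + 1), ∑ j, ENNReal.ofReal |c j| *
          ENNReal.ofReal ‖bl (bf j) u - PS (bf j) X u‖ := lintegral_mono h2
    _ = ∑ j, ∫⁻ u in Icc t (t + 1), ENNReal.ofReal |c j| *
          ENNReal.ofReal ‖bl (bf j) u - PS (bf j) X u‖ := lintegral_finsetSum' _ fun j _ => hm j
    _ ≤ ∑ j, ENNReal.ofReal (|c j| * (ε / (A + 1))) := by
        refine Finset.sum_le_sum fun j _ => ?_
        rw [lintegral_const_mul' _ _ ENNReal.ofReal_ne_top, ENNReal.ofReal_mul (abs_nonneg _)]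
        exact mul_le_mul' le_rfl (hX0 j X ((Finset.le_sup (Finset.mem_univ j)).trans hX) t)
    _ = ENNReal.ofReal (A * (ε / (A + 1))) := by
        rw [← ENNReal.ofReal_sum_of_nonneg (fun j _ => by positivity), ← Finset.sum_mul]
    _ ≤ ENNReal.ofReal ε := by
        refine ENNReal.ofReal_le_ofReal ?_
        rw [mul_div_assoc', div_le_iff₀ (by positivity)]
        nlinarith

end abstract_part

variable {K : ι → Type} [∀ j, Field (K j)] [∀ j, NumberField (K j)] {n : ι → ℕ}
  {X : ∀ j, Set (MvPolynomial (Fin (n j)) (𝓞 (K j)))} {d i N : ι → ℕ}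
  {B : ∀ j, HeightOneSpectrum (𝓞 (K j)) → ℂ[X]}
  (hB : ∀ j, IsEulerSystem (X j) (d j) (i j) (N j) (B j)) (c : ι → ℝ)

/-- the coefficients of the logarithm of the j-th L-function -/
noncomputable def bj (_ : ∀ j, IsEulerSystem (X j) (d j) (i j) (N j) (B j)) (j : ι) : PP → ℂ :=
  bb (be (X j) (d j) (i j) (N j) (B j))

lemma norm_bj (j : ι) (x : PP) :
    ‖bj hB j x‖ ≤ ((Module.finrank ℚ (K j) : ℝ) * N j) / (x.2 + 1 : ℕ) :=
  norm_bb (norm_be _ _ _ _ _) x

/-- the logarithm of the modulus of the product of the boundary values -/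
noncomputable def Phi (u : ℝ) : ℝ := ∑ j, c j * Real.log ‖bdry (hB j) u‖

/-- the contribution of the bad factors above `p` -/
noncomputable def gp (p : Nat.Primes) (u : ℝ) : ℝ :=
  ∑ j, c j * ∑ v ∈ (Sp p : Finset (HeightOneSpectrum (𝓞 (K j)))),
    Real.log ‖bfac (hB j) v (1 + u * I)‖

/-- all bad rational primes -/
noncomputable def allBad : Finset Nat.Primes := by
  classical exact Finset.univ.biUnion fun j => badP (hB j)

lemma badP_sub (j : ι) : badP (hB j) ⊆ allBad hB := by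
  classical
  unfold allBad
  exact Finset.subset_biUnion_of_mem (fun j => badP (hB j)) (Finset.mem_univ j)

lemma DD_ne_ae : ∀ᵐ u : ℝ, ∀ j, DD (hB j) (1 + u * I) ≠ 0 := by
  rw [ae_all_iff]
  intro j
  have h1 : {τ : ℝ | DD (hB j) (1 + τ * I) = 0}.Countable := DD_line (hB j)
  exact measure_eq_zero_iff_ae_notMem.1 (h1.measure_zero volume)

lemma log_DD (j : ι) {S : Finset Nat.Primes} (hS : badP (hB j) ⊆ S) {s : ℂ}
    (h : DD (hB j) s ≠ 0) : Real.log ‖(DD (hB j) s)⁻¹‖ =
      ∑ p ∈ S, ∑ v ∈ (Sp p : Finset (HeightOneSpectrum (𝓞 (K j)))),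
        Real.log ‖bfac (hB j) v s‖ := by
  have h1 := DD_inv (hB j) hS s
  have h2 : (∏ p ∈ S, ∏ v ∈ (Sp p : Finset (HeightOneSpectrum (𝓞 (K j)))), bfac (hB j) v s) ≠ 0 := by
    rw [← h1]
    exact inv_ne_zero h
  rw [Finset.prod_ne_zero_iff] at h2
  rw [h1, norm_prod, Real.log_prod fun p hp => norm_ne_zero_iff.2 (h2 p hp)]
  refine Finset.sum_congr rfl fun p hp => ?_
  have h3 := Finset.prod_ne_zero_iff.1 (h2 p hp)
  rw [norm_prod, Real.log_prod fun v hv => norm_ne_zero_iff.2 (h3 v hv)]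

lemma Phi_ae {S : Finset Nat.Primes} (hS : allBad hB ⊆ S) :
    ∀ᵐ u : ℝ, Phi hB c u = Phi0 (bj hB) c u + ∑ p ∈ S, gp hB c p u := by
  filter_upwards [DD_ne_ae hB] with u hu
  unfold Phi Phi0 gp
  rw [Finset.sum_comm, ← Finset.sum_add_distrib]
  refine Finset.sum_congr rfl fun j _ => ?_
  rw [← Finset.mul_sum, ← mul_add]
  congr 1
  unfold bdry
  rw [norm_mul, Real.log_mul (norm_ne_zero_iff.2 (inv_ne_zero (hu j)))
    (norm_ne_zero_iff.2 (Complex.exp_ne_zero _)), Complex.norm_exp, Real.log_exp,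
    log_DD hB j ((badP_sub hB j).trans hS) (hu j), add_comm]
  rfl

lemma gp_measurable (p : Nat.Primes) : Measurable (gp hB c p) := by
  unfold gp
  refine Finset.measurable_fun_sum _ fun j _ => Measurable.const_mul ?_ _
  refine Finset.measurable_fun_sum _ fun v _ => ?_
  have h1 : Measurable fun u : ℝ => (1 + u * I : ℂ) := by fun_prop
  exact Real.measurable_log.comp ((measurable_bfac (hB j) v).comp h1).norm

lemma line_shift (p : Nat.Primes) (u : ℝ) :
    (1 + ((u + 2 * Real.pi / Real.log (p : ℕ) : ℝ) : ℂ) * I : ℂ) =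
      (1 + u * I) + (per p : ℂ) * I := by
  unfold per
  push_cast
  ring

lemma gp_periodic (p : Nat.Primes) :
    Function.Periodic (gp hB c p) (2 * Real.pi / Real.log (p : ℕ)) := by
  intro u
  unfold gp
  refine Finset.sum_congr rfl fun j _ => ?_
  congr 1
  refine Finset.sum_congr rfl fun v hv => ?_
  rw [line_shift, bfac_periodic (hB j) hv]

/-- **The coefficients vanish.** -/
theorem comb_vanish {S : Finset Nat.Primes} (hw : Windows S (Phi hB c)) {x : PP}
    (hx : x.1 ∉ S) (hx' : x.1 ∉ allBad hB) : comb (bj hB) c x = 0 := by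
  classical
  refine vanish (aem_Phi0 c (norm_bj hB)) (approx c (norm_bj hB)) (S := S ∪ allBad hB) ?_
    (x0 := x) (by rw [Finset.mem_union]; tauto)
  intro ε hε R
  obtain ⟨t, T, hR, hT, h, hh, hint⟩ := hw ε hε R
  refine ⟨t, T, hR, hT, fun p u => (if p ∈ S then h p u else 0) - gp hB c p u, ?_, ?_⟩
  · intro p _
    constructor
    · refine Measurable.sub ?_ (gp_measurable hB c p)
      by_cases hp : p ∈ S
      · simp only [if_pos hp]
        exact (hh p hp).1
      · simp only [if_neg hp]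
        exact measurable_const
    · intro u
      simp only
      rw [gp_periodic hB c p u]
      by_cases hp : p ∈ S
      · rw [if_pos hp, if_pos hp, (hh p hp).2 u]
      · rw [if_neg hp, if_neg hp]
  · refine le_trans (le_of_eq ?_) hint
    refine lintegral_congr_ae ?_
    refine ae_restrict_of_ae ?_
    filter_upwards [Phi_ae hB c (S := S ∪ allBad hB) Finset.subset_union_right] with u hu
    congr 2
    rw [hu, Finset.sum_sub_distrib]
    have h1 : ∑ p ∈ S ∪ allBad hB, (if p ∈ S then h p u else 0) = ∑ p ∈ S, h p u := by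
      rw [Finset.sum_ite_mem, Finset.union_inter_cancel_left]
    rw [h1]
    ring

lemma comb_fiber (p : Nat.Primes) {s : ℂ} (hs : 1 ≤ s.re) :
    HasSum (fun k : ℕ => tm (comb (bj hB) c) s (p, k))
      (∑ j, (c j : ℂ) * ∑ v ∈ (Sp p : Finset (HeightOneSpectrum (𝓞 (K j)))),
        lv (be (X j) (d j) (i j) (N j) (B j)) v s) := by
  have h1 : ∀ j ∈ (Finset.univ : Finset ι), HasSum (fun k : ℕ => (c j : ℂ) * tm (bj hB j) s (p, k))
      ((c j : ℂ) * ∑ v ∈ (Sp p : Finset (HeightOneSpectrum (𝓞 (K j)))),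
        lv (be (X j) (d j) (i j) (N j) (B j)) v s) := fun j _ =>
    (hasSum_fiber (norm_be (X j) (d j) (i j) (N j) (B j)) p hs).mul_left _
  convert hasSum_sum h1 using 1
  funext k
  unfold tm comb
  rw [Finset.sum_mul]
  refine Finset.sum_congr rfl fun j _ => ?_
  ring

/-- the sum of the logarithms at a prime where the coefficients vanish -/
lemma lv_vanish {p : Nat.Primes} (h : ∀ k : ℕ, comb (bj hB) c (p, k) = 0) {s : ℂ}
    (hs : 1 ≤ s.re) : ∑ j, (c j : ℂ) * ∑ v ∈ (Sp p : Finset (HeightOneSpectrum (𝓞 (K j)))),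
        lv (be (X j) (d j) (i j) (N j) (B j)) v s = 0 := by
  have h1 := comb_fiber hB c p hs
  have h2 : (fun k : ℕ => tm (comb (bj hB) c) s (p, k)) = fun _ => 0 := by
    funext k
    unfold tm
    rw [h k, zero_mul]
  rw [h2] at h1
  exact h1.unique hasSum_zero

/-- at a prime which is not bad the Euler factor is the exponential -/
lemma above_good (j : ι) {p : Nat.Primes} (hp : p ∉ badP (hB j)) {s : ℂ} (hs : 1 ≤ s.re) :
    above (B j) p (s + (i j : ℂ) / 2) =
      Complex.exp (∑ v ∈ (Sp p : Finset (HeightOneSpectrum (𝓞 (K j)))),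
        lv (be (X j) (d j) (i j) (N j) (B j)) v s) := by
  rw [above_split (hB j) p hs]
  have h1 : ∏ v ∈ (Sp p : Finset (HeightOneSpectrum (𝓞 (K j)))), bfac (hB j) v s = 1 := by
    refine Finset.prod_eq_one fun v hv => ?_
    unfold bfac
    rw [if_neg]
    intro hb
    rw [mem_Sp] at hv
    exact hp (hv ▸ mem_badP (hB j) hb)
  rw [h1, one_mul]

/-- **From the windows to the Euler factors.** -/
theorem euler_of_windows {S : Finset Nat.Primes} (hw : Windows S (Phi hB c)) {p : Nat.Primes}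
    (hp : p ∉ S) (hp' : p ∉ allBad hB) {s : ℂ} (hs : 1 ≤ s.re) :
    ∑ j, c j * Real.log ‖above (B j) p (s + (i j : ℂ) / 2)‖ = 0 := by
  have h1 := lv_vanish hB c (p := p) (fun k => comb_vanish hB c hw (x := (p, k)) hp hp') hs
  have h2 : ∑ j, c j * Real.log ‖above (B j) p (s + (i j : ℂ) / 2)‖ =
      (∑ j, (c j : ℂ) * ∑ v ∈ (Sp p : Finset (HeightOneSpectrum (𝓞 (K j)))),
        lv (be (X j) (d j) (i j) (N j) (B j)) v s).re := by
    rw [Complex.re_sum]
    refine Finset.sum_congr rfl fun j _ => ?_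
    rw [above_good hB j (fun h => hp' (badP_sub hB j h)) hs, Complex.norm_exp, Real.log_exp,
      Complex.re_ofReal_mul]
  rw [h2, h1, Complex.zero_re]

/-- the product over the primes in `S`, and the rest -/
noncomputable def rest (S : Finset Nat.Primes) (j : ι) (s : ℂ) : ℂ :=
  FF (bj hB j) s - ∑ p ∈ S, ∑ v ∈ (Sp p : Finset (HeightOneSpectrum (𝓞 (K j)))),
    lv (be (X j) (d j) (i j) (N j) (B j)) v s

lemma L_rest (j : ι) {S : Finset Nat.Primes} (hS : allBad hB ⊆ S) {s : ℂ} (hs : 1 < s.re) :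
    LFun (B j) (s + (i j : ℂ) / 2) = (∏ p ∈ S, above (B j) p (s + (i j : ℂ) / 2)) *
      Complex.exp (rest hB S j s) := L_split (hB j) ((badP_sub hB j).trans hS) hs

lemma hasSum_rest (j : ι) (S : Finset Nat.Primes) {s : ℂ} (hs : 1 < s.re) :
    HasSum (fun p : Nat.Primes => if p ∈ S then 0 else
      ∑ v ∈ (Sp p : Finset (HeightOneSpectrum (𝓞 (K j)))),
        lv (be (X j) (d j) (i j) (N j) (B j)) v s) (rest hB S j s) := by
  classical
  have h0 := summable_tm (norm_bj hB j) hs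
  have h1 : HasSum (fun p : Nat.Primes => ∑ v ∈ (Sp p : Finset (HeightOneSpectrum (𝓞 (K j)))),
      lv (be (X j) (d j) (i j) (N j) (B j)) v s) (FF (bj hB j) s) :=
    HasSum.prod_fiberwise h0.hasSum fun p =>
      hasSum_fiber (norm_be (X j) (d j) (i j) (N j) (B j)) p hs.le
  have h2 : HasSum (fun p : Nat.Primes => if p ∈ S then
      ∑ v ∈ (Sp p : Finset (HeightOneSpectrum (𝓞 (K j)))),
        lv (be (X j) (d j) (i j) (N j) (B j)) v s else 0)
      (∑ p ∈ S, ∑ v ∈ (Sp p : Finset (HeightOneSpectrum (𝓞 (K j)))),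
        lv (be (X j) (d j) (i j) (N j) (B j)) v s) := by
    have h3 := hasSum_sum_of_ne_finset_zero (L := SummationFilter.unconditional _)
      (f := fun p : Nat.Primes => if p ∈ S then
        ∑ v ∈ (Sp p : Finset (HeightOneSpectrum (𝓞 (K j)))),
        lv (be (X j) (d j) (i j) (N j) (B j)) v s else 0) (s := S) fun p hp => if_neg hp
    rwa [Finset.sum_congr rfl fun p hp => if_pos hp] at h3
  have h4 : (fun p : Nat.Primes => if p ∈ S then 0 else
      ∑ v ∈ (Sp p : Finset (HeightOneSpectrum (𝓞 (K j)))),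
        lv (be (X j) (d j) (i j) (N j) (B j)) v s) = fun p =>
      (∑ v ∈ (Sp p : Finset (HeightOneSpectrum (𝓞 (K j)))),
        lv (be (X j) (d j) (i j) (N j) (B j)) v s) -
      if p ∈ S then ∑ v ∈ (Sp p : Finset (HeightOneSpectrum (𝓞 (K j)))),
        lv (be (X j) (d j) (i j) (N j) (B j)) v s else 0 := by
    funext p
    by_cases hp : p ∈ S
    · rw [if_pos hp, if_pos hp, sub_self]
    · rw [if_neg hp, if_neg hp, sub_zero]
  rw [h4]
  exact h1.sub h2

end Pool.Agent.U597.EW
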