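import Pool.Agent.U597.EW.Fam

/-!
# Families of L-functions of varieties and the windows of the edge, II
-/

set_option autoImplicit false

namespace Pool.Agent.U597.EW

open Complex MeasureTheory Filter Topology Set NumberField IsDedekindDomain Polynomial
open Pool.Agent.TH339.MP Pool.Agent.N881.RP Pool.Agent.R409.EV
open Pool.Agent.TH958.BV (IsEulerSystem localFactor LFun edgePoint angle)

variable {ι : Type} [Fintype ι]
  {K : ι → Type} [∀ j, Field (K j)] [∀ j, NumberField (K j)] {n : ι → ℕ}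
  {X : ∀ j, Set (MvPolynomial (Fin (n j)) (𝓞 (K j)))} {d i N : ι → ℕ}
  {B : ∀ j, HeightOneSpectrum (𝓞 (K j)) → ℂ[X]}
  (hB : ∀ j, IsEulerSystem (X j) (d j) (i j) (N j) (B j)) (c : ι → ℝ)

/-- the function with the period of the Euler factors -/
noncomputable def hper (p : Nat.Primes) (s : ℂ) : ℝ :=
  ∑ j, c j * Real.log ‖above (B j) p (s + (i j : ℂ) / 2)‖

lemma hper_measurable (p : Nat.Primes) :
    Measurable fun u : ℝ => hper (B := B) (i := i) c p (1 + u * I) := by
  unfold hper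
  refine Finset.measurable_fun_sum _ fun j _ => Measurable.const_mul ?_ _
  have h1 : Measurable fun u : ℝ => (1 + u * I + (i j : ℂ) / 2 : ℂ) := by fun_prop
  exact Real.measurable_log.comp ((measurable_above (B j) p).comp h1).norm

lemma hper_periodic (p : Nat.Primes) :
    Function.Periodic (fun u : ℝ => hper (B := B) (i := i) c p (1 + u * I))
      (2 * Real.pi / Real.log (p : ℕ)) := by
  intro u
  simp only
  unfold hper
  refine Finset.sum_congr rfl fun j _ => ?_
  rw [line_shift]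
  have h1 : (1 + u * I + (per p : ℂ) * I + (i j : ℂ) / 2 : ℂ) =
      (1 + u * I + (i j : ℂ) / 2) + (per p : ℂ) * I := by ring
  rw [h1, above_periodic]

lemma above_ne {j : ι} {S : Finset Nat.Primes} (hS : allBad hB ⊆ S) {s : ℂ} (hs : 1 ≤ s.re)
    (hD : DD (hB j) s ≠ 0) {p : Nat.Primes} (hp : p ∈ S) :
    above (B j) p (s + (i j : ℂ) / 2) ≠ 0 := by
  rw [above_split (hB j) p hs]
  refine mul_ne_zero ?_ (Complex.exp_ne_zero _)
  have h1 := DD_inv (hB j) ((badP_sub hB j).trans hS) s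
  have h2 : (∏ p ∈ S, ∏ v ∈ (Sp p : Finset (HeightOneSpectrum (𝓞 (K j)))), bfac (hB j) v s) ≠ 0 := by
    rw [← h1]
    exact inv_ne_zero hD
  rw [Finset.prod_ne_zero_iff] at h2
  exact h2 p hp

omit [Fintype ι] in
lemma above_continuousAt {j : ι} {p : Nat.Primes} {s : ℂ} (h : above (B j) p s ≠ 0) :
    ContinuousAt (above (B j) p) s := by
  have h1 : above (B j) p = fun s => ∏ v ∈ Sp p, localFactor (B j) v s :=
    funext fun s => above_eq (B j) p s
  rw [h1] at h ⊢
  simp only [Finset.prod_ne_zero_iff] at h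
  refine tendsto_finsetProd _ fun v hv => ?_
  have h2 := h v hv
  unfold localFactor at h2 ⊢
  have h3 := (continuous_eval (B j) v).continuousAt (x := s)
  exact ContinuousAt.inv₀ h3 fun h0 => h2 (by
    have h4 : (B j v).eval ((Ideal.absNorm v.asIdeal : ℂ) ^ (-s)) = 0 := h0
    rw [h4, inv_zero])

/-- the sum of the rests -/
lemma sum_rest {S : Finset Nat.Primes} (hS : allBad hB ⊆ S)
    (hrel : ∀ p ∉ S, ∀ s : ℂ, 1 < s.re → hper (B := B) (i := i) c p s = 0) {s : ℂ}
    (hs : 1 < s.re) : ∑ j, c j * (rest hB S j s).re = 0 := by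
  have h1 : ∀ j ∈ (Finset.univ : Finset ι), HasSum (fun p : Nat.Primes => c j * (if p ∈ S then 0 else
      ∑ v ∈ (Sp p : Finset (HeightOneSpectrum (𝓞 (K j)))),
        lv (be (X j) (d j) (i j) (N j) (B j)) v s).re) (c j * (rest hB S j s).re) := by
    intro j _
    exact (Complex.hasSum_re (hasSum_rest hB j S hs)).mul_left _
  have h2 := hasSum_sum h1
  refine h2.unique ?_
  have h3 : (fun p : Nat.Primes => ∑ j, c j * (if p ∈ S then (0 : ℂ) else
      ∑ v ∈ (Sp p : Finset (HeightOneSpectrum (𝓞 (K j)))),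
        lv (be (X j) (d j) (i j) (N j) (B j)) v s).re) = fun _ => 0 := by
    funext p
    by_cases hp : p ∈ S
    · simp [hp]
    · rw [← hrel p hp s hs]
      unfold hper
      refine Finset.sum_congr rfl fun j _ => ?_
      rw [if_neg hp, above_good hB j (fun h => hp (hS (badP_sub hB j h))) hs.le,
        Complex.norm_exp, Real.log_exp]
  rw [h3]
  exact hasSum_zero

lemma log_sum {S : Finset Nat.Primes} (hS : allBad hB ⊆ S)
    (hrel : ∀ p ∉ S, ∀ s : ℂ, 1 < s.re → hper (B := B) (i := i) c p s = 0) {s : ℂ}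
    (hs : 1 < s.re) (hD : ∀ j, DD (hB j) s ≠ 0) :
    ∑ j, c j * Real.log ‖LFun (B j) (s + (i j : ℂ) / 2)‖ =
      ∑ p ∈ S, hper (B := B) (i := i) c p s := by
  have h1 := sum_rest hB c hS hrel hs
  unfold hper
  rw [Finset.sum_comm, ← add_zero (∑ j, ∑ p ∈ S, _), ← h1, ← Finset.sum_add_distrib]
  refine Finset.sum_congr rfl fun j _ => ?_
  rw [← Finset.mul_sum, ← mul_add]
  congr 1
  have h2 : ∀ p ∈ S, ‖above (B j) p (s + (i j : ℂ) / 2)‖ ≠ 0 := fun p hp =>
    norm_ne_zero_iff.2 (above_ne hB hS hs.le (hD j) hp)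
  rw [L_rest hB j hS hs, norm_mul, norm_prod, Real.log_mul (Finset.prod_ne_zero_iff.2 h2)
    (norm_ne_zero_iff.2 (Complex.exp_ne_zero _)), Real.log_prod h2, Complex.norm_exp, Real.log_exp]

/-- **From the Euler factors to the whole edge.** -/
theorem everywhere_of_euler {S : Finset Nat.Primes} (hS : allBad hB ⊆ S)
    (hrel : ∀ p ∉ S, ∀ s : ℂ, 1 < s.re → hper (B := B) (i := i) c p s = 0) :
    ∀ᵐ u : ℝ, Phi hB c u = ∑ p ∈ S, hper (B := B) (i := i) c p (1 + u * I) := by
  have hrad : ∀ᵐ u : ℝ, ∀ j, Tendsto (fun x : ℝ => LFun (B j) (pt (ed (i j)) u + x)) (𝓝[>] 0)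
      (𝓝 (bdry (hB j) u)) := ae_all_iff.2 fun j => bdry_radial (hB j)
  have hne : ∀ᵐ u : ℝ, ∀ j, bdry (hB j) u ≠ 0 := ae_all_iff.2 fun j => bdry_ne (hB j)
  filter_upwards [hrad, hne, DD_ne_ae hB] with u h1 h2 h3
  -- the path
  have hpath : Tendsto (fun x : ℝ => (1 + u * I + x : ℂ)) (𝓝[>] 0) (𝓝 (1 + u * I)) := by
    have h4 : Continuous fun x : ℝ => (1 + u * I + x : ℂ) := by fun_prop
    have h5 := h4.tendsto 0
    rw [Complex.ofReal_zero, add_zero] at h5
    exact h5.mono_left nhdsWithin_le_nhds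
  have hpe : ∀ (j : ι) (x : ℝ), (1 + u * I + x : ℂ) + (i j : ℂ) / 2 = pt (ed (i j)) u + x := by
    intro j x
    have := pt_sub (i j) u
    linear_combination -this
  have hlhs : Tendsto (fun x : ℝ => ∑ j, c j *
      Real.log ‖LFun (B j) ((1 + u * I + x : ℂ) + (i j : ℂ) / 2)‖) (𝓝[>] 0) (𝓝 (Phi hB c u)) := by
    unfold Phi
    refine tendsto_finsetSum _ fun j _ => Tendsto.const_mul _ ?_
    simp_rw [hpe j]
    exact (Real.continuousAt_log (norm_ne_zero_iff.2 (h2 j))).tendsto.comp (h1 j).norm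
  have hrhs : Tendsto (fun x : ℝ => ∑ p ∈ S, hper (B := B) (i := i) c p (1 + u * I + x))
      (𝓝[>] 0) (𝓝 (∑ p ∈ S, hper (B := B) (i := i) c p (1 + u * I))) := by
    refine tendsto_finsetSum _ fun p hp => ?_
    unfold hper
    refine tendsto_finsetSum _ fun j _ => Tendsto.const_mul _ ?_
    have h4 : above (B j) p ((1 + u * I : ℂ) + (i j : ℂ) / 2) ≠ 0 :=
      above_ne hB hS (by simp) (h3 j) hp
    have h5 := (above_continuousAt h4).tendsto
    have h6 : Tendsto (fun x : ℝ => (1 + u * I + x : ℂ) + (i j : ℂ) / 2) (𝓝[>] 0)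
        (𝓝 ((1 + u * I : ℂ) + (i j : ℂ) / 2)) := hpath.add_const _
    exact (Real.continuousAt_log (norm_ne_zero_iff.2 h4)).tendsto.comp (h5.comp h6).norm
  refine tendsto_nhds_unique (hlhs.congr' ?_) hrhs
  have hDev : ∀ᶠ x : ℝ in 𝓝[>] 0, ∀ j, DD (hB j) (1 + u * I + x) ≠ 0 := by
    rw [eventually_all]
    intro j
    exact hpath.eventually ((DD_analytic (hB j) _).continuousAt.eventually_ne (h3 j))
  filter_upwards [hDev, self_mem_nhdsWithin] with x hx hx0
  have hx1 : (0 : ℝ) < x := hx0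
  exact log_sum hB c hS hrel (by simpa using hx1) hx

/-- the product formula with integral exponents -/
theorem product_formula {m : ι → ℤ} {S : Finset Nat.Primes} (hS : allBad hB ⊆ S)
    (hw : Windows S (Phi hB fun j => (m j : ℝ))) {s : ℂ} (hs : 1 < s.re) :
    (∀ p ∉ S, ∏ j, above (B j) p (s + (i j : ℂ) / 2) ^ m j = 1) ∧
    ∏ j, LFun (B j) (s + (i j : ℂ) / 2) ^ m j =
      ∏ j, ∏ p ∈ S, above (B j) p (s + (i j : ℂ) / 2) ^ m j := by
  have hv : ∀ p ∉ S, ∑ j, (m j : ℂ) * ∑ v ∈ (Sp p : Finset (HeightOneSpectrum (𝓞 (K j)))),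
        lv (be (X j) (d j) (i j) (N j) (B j)) v s = 0 := by
    intro p hp
    have h1 := lv_vanish hB (fun j => (m j : ℝ)) (p := p) (fun k =>
      comb_vanish hB _ hw (x := (p, k)) hp fun h => hp (hS h)) hs.le
    simpa using h1
  constructor
  · intro p hp
    have h1 : ∀ j, above (B j) p (s + (i j : ℂ) / 2) ^ m j = Complex.exp ((m j : ℂ) *
        ∑ v ∈ (Sp p : Finset (HeightOneSpectrum (𝓞 (K j)))),
          lv (be (X j) (d j) (i j) (N j) (B j)) v s) := by
      intro j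
      rw [above_good hB j (fun h => hp (hS (badP_sub hB j h))) hs.le, ← Complex.exp_int_mul]
    simp_rw [h1]
    rw [← Complex.exp_sum, hv p hp, Complex.exp_zero]
  · have h2 : ∑ j, (m j : ℂ) * rest hB S j s = 0 := by
      have h3 : ∀ j ∈ (Finset.univ : Finset ι), HasSum (fun p : Nat.Primes => (m j : ℂ) *
          (if p ∈ S then 0 else ∑ v ∈ (Sp p : Finset (HeightOneSpectrum (𝓞 (K j)))),
            lv (be (X j) (d j) (i j) (N j) (B j)) v s)) ((m j : ℂ) * rest hB S j s) :=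
        fun j _ => (hasSum_rest hB j S hs).mul_left _
      refine (hasSum_sum h3).unique ?_
      have h4 : (fun p : Nat.Primes => ∑ j, (m j : ℂ) * (if p ∈ S then (0 : ℂ) else
          ∑ v ∈ (Sp p : Finset (HeightOneSpectrum (𝓞 (K j)))),
            lv (be (X j) (d j) (i j) (N j) (B j)) v s)) = fun _ => 0 := by
        funext p
        by_cases hp : p ∈ S
        · simp [hp]
        · simp only [if_neg hp]
          exact hv p hp
      rw [h4]
      exact hasSum_zero
    have h3 : ∀ j, LFun (B j) (s + (i j : ℂ) / 2) ^ m j =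
        (∏ p ∈ S, above (B j) p (s + (i j : ℂ) / 2) ^ m j) *
          Complex.exp ((m j : ℂ) * rest hB S j s) := by
      intro j
      rw [L_rest hB j hS hs, mul_zpow, ← Complex.exp_int_mul, Finset.prod_zpow]
    simp_rw [h3]
    rw [Finset.prod_mul_distrib, ← Complex.exp_sum, h2, Complex.exp_zero, mul_one]

/-- **The continuation of one L-function from that of the others.** -/
theorem continues_of {m : ι → ℤ} {S : Finset Nat.Primes} (hS : allBad hB ⊆ S)
    (hw : Windows S (Phi hB fun j => (m j : ℝ)))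
    (hfin : ∀ (j : ι) (v : HeightOneSpectrum (𝓞 (K j))) (s : ℂ), (i j : ℝ) / 2 + 1 < s.re →
      (B j v).eval ((Ideal.absNorm v.asIdeal : ℂ) ^ (-s)) ≠ 0)
    {U : Set ℂ} {j0 : ι} (hj0 : m j0 = 1 ∨ m j0 = -1)
    (hc : ∀ j, j ≠ j0 → Continues (B j) (i j) U) : Continues (B j0) (i j0) U := by
  classical
  have hc' : ∀ j : ι, ∃ Λ : ℂ → ℂ, j ≠ j0 → (∀ s ∈ U, MeromorphicAt Λ s) ∧
      ∀ s : ℂ, 1 < s.re → Λ s = LFun (B j) (s + (i j : ℂ) / 2) := by
    intro j
    by_cases h : j = j0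
    · exact ⟨0, fun h' => absurd h h'⟩
    · obtain ⟨Λ, hΛ⟩ := hc j h
      exact ⟨Λ, fun _ => hΛ⟩
  choose Λ hΛ using hc'
  set F : ℂ → ℂ := fun s => (∏ j, ∏ p ∈ S, above (B j) p (s + (i j : ℂ) / 2) ^ m j) *
    ∏ j ∈ Finset.univ.erase j0, (Λ j s ^ m j)⁻¹ with hF
  have hFm : ∀ s ∈ U, MeromorphicAt F s := by
    intro s hs
    refine MeromorphicAt.mul ?_ ?_
    · refine MeromorphicAt.fun_prod fun j _ => MeromorphicAt.fun_prod fun p _ => ?_
      exact (meromorphic_above (B j) p _ s).zpow _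
    · refine MeromorphicAt.fun_prod fun j hj => ?_
      exact (((hΛ j (Finset.ne_of_mem_erase hj)).1 s hs).zpow _).inv
  have hFe : ∀ s : ℂ, 1 < s.re → F s = LFun (B j0) (s + (i j0 : ℂ) / 2) ^ m j0 := by
    intro s hs
    have hne : ∀ j, LFun (B j) (s + (i j : ℂ) / 2) ^ m j ≠ 0 := by
      intro j
      refine zpow_ne_zero _ (LFun_analytic (hB j) (hfin j) ?_).2
      unfold ed
      rw [half_eq, Complex.add_re, Complex.ofReal_re]
      linarith
    simp only [hF]
    rw [← (product_formula hB hS hw hs).2, ← Finset.mul_prod_erase _ _ (Finset.mem_univ j0)]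
    have h2 : ∏ j ∈ Finset.univ.erase j0, (Λ j s ^ m j)⁻¹ =
        (∏ j ∈ Finset.univ.erase j0, LFun (B j) (s + (i j : ℂ) / 2) ^ m j)⁻¹ := by
      rw [← Finset.prod_inv_distrib]
      refine Finset.prod_congr rfl fun j hj => ?_
      rw [(hΛ j (Finset.ne_of_mem_erase hj)).2 s hs]
    rw [h2, mul_assoc, mul_inv_cancel₀, mul_one]
    exact Finset.prod_ne_zero_iff.2 fun j _ => hne j
  rcases hj0 with h | h
  · refine ⟨F, hFm, fun s hs => ?_⟩
    rw [hFe s hs, h, zpow_one]
  · refine ⟨fun s => (F s)⁻¹, fun s hs => (hFm s hs).inv, fun s hs => ?_⟩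
    simp only
    rw [hFe s hs, h, zpow_neg, zpow_one, inv_inv]

end Pool.Agent.U597.EW
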