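import Pool.Agent.U597.EW.Dif
import Pool.Agent.U597.EW.Defs

/-!
# Fourier-Bohr coefficients of the logarithm of the modulus in long windows of the edge
-/

set_option autoImplicit false

namespace Pool.Agent.U597.EW

open Complex MeasureTheory Filter Topology Set
open Pool.Agent.TH339.MP Pool.Agent.N881.RP
open scoped ComplexConjugate

/-- the coefficient on the edge -/
noncomputable def ac (b : PP → ℂ) (x : PP) : ℂ := b x * (wt 1 x : ℂ)

lemma re_PS (b : PP → ℂ) (X : ℕ) (u : ℝ) :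
    (((PS b X u).re : ℝ) : ℂ) = (∑ x ∈ TX X, ac b x / 2 * ee (fr x) u) +
      ∑ x ∈ TX X, conj (ac b x) / 2 * ee (-fr x) u := by
  have h1 : (((PS b X u).re : ℝ) : ℂ) = (PS b X u + conj (PS b X u)) / 2 := by
    rw [Complex.add_conj]
    push_cast
    ring
  rw [h1]
  unfold PS ac
  rw [map_sum, add_div, Finset.sum_div, Finset.sum_div]
  congr 1
  · refine Finset.sum_congr rfl fun x _ => ?_
    ring
  · refine Finset.sum_congr rfl fun x _ => ?_
    rw [map_mul, ← ee_neg_left]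
    ring

lemma dif_re_PS (b : PP → ℂ) (X : ℕ) (L : List ℝ) (u : ℝ) :
    ((dif L (fun u => (PS b X u).re) u : ℝ) : ℂ) =
      (∑ x ∈ TX X, ac b x / 2 * ka L (fr x) * ee (fr x) u) +
      ∑ x ∈ TX X, conj (ac b x) / 2 * ka L (-fr x) * ee (-fr x) u := by
  rw [dif_ofReal]
  have h1 : (fun u : ℝ => (((PS b X u).re : ℝ) : ℂ)) = fun u =>
      (∑ x ∈ TX X, ac b x / 2 * ee (fr x) u) + ∑ x ∈ TX X, conj (ac b x) / 2 * ee (-fr x) u :=
    funext fun u => re_PS b X u
  rw [h1, dif_add, dif_sum, dif_sum]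
  simp only [dif_ee]

lemma norm_integral_ee {m : ℝ} (hm : m ≠ 0) (t T : ℝ) :
    ‖∫ u in t..(t + T), ee m u‖ ≤ 2 / |m| := by
  have h1 := integral_ee hm t (t + T)
  have h2 : ‖I * ∫ u in t..(t + T), ee m u‖ = ‖∫ u in t..(t + T), ee m u‖ := by
    rw [norm_mul, norm_I, one_mul]
  rw [← h2, h1, norm_div, Complex.norm_real, Real.norm_eq_abs]
  have h3 : ‖ee m (t + T) - ee m t‖ ≤ 2 := by
    refine (norm_sub_le _ _).trans ?_
    rw [norm_ee, norm_ee]
    norm_num
  gcongr

lemma fr_injective : Function.Injective fr := by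
  intro x y h
  rw [fr_eq, fr_eq] at h
  have h1 : Real.log (qq x) = Real.log (qq y) := neg_injective h
  have h2 : (0 : ℝ) < qq x := by
    have := two_le_qq x
    exact_mod_cast (by omega : 0 < qq x)
  have h3 : (0 : ℝ) < qq y := by
    have := two_le_qq y
    exact_mod_cast (by omega : 0 < qq y)
  have h4 := Real.log_injOn_pos (Set.mem_Ioi.2 h2) (Set.mem_Ioi.2 h3) h1
  exact qq_injective (by exact_mod_cast h4)

lemma continuous_dif_re (b : PP → ℂ) (X : ℕ) (L : List ℝ) :
    Continuous (dif L fun u => (PS b X u).re) := by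
  have h0 : Continuous fun u => (PS b X u).re := Complex.continuous_re.comp (continuous_PS b X)
  generalize (fun u => (PS b X u).re) = f at h0
  induction L with
  | nil => exact h0
  | cons a L ih => exact (ih.comp (continuous_id.add continuous_const)).sub ih

lemma key (b : PP → ℂ) {x0 : PP} (L : List ℝ) {X : ℕ} (hx0 : x0 ∈ TX X) :
    ∃ C : ℝ, 0 ≤ C ∧ ∀ t T : ℝ, 0 ≤ T → T * (‖ac b x0‖ / 2 * ‖ka L (fr x0)‖) ≤
      C + ∫ u in t..(t + T), |dif L (fun u => (PS b X u).re) u| := by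
  classical
  set C1 : ℝ := ∑ x ∈ (TX X).erase x0, ‖ac b x / 2 * ka L (fr x)‖ * (2 / |fr x - fr x0|) with hC1
  set C2 : ℝ := ∑ x ∈ TX X, ‖conj (ac b x) / 2 * ka L (-fr x)‖ * (2 / |(-fr x) - fr x0|) with hC2
  have hC1' : 0 ≤ C1 := Finset.sum_nonneg fun x _ => by positivity
  have hC2' : 0 ≤ C2 := Finset.sum_nonneg fun x _ => by positivity
  refine ⟨C1 + C2, by positivity, fun t T hT => ?_⟩
  have hi : ∀ (c : ℂ) (m : ℝ), IntervalIntegrable (fun u => c * ee m u) volume t (t + T) :=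
    fun c m => (continuous_const.mul (continuous_ee _)).intervalIntegrable _ _
  -- the integral against the character
  have h1 : ∫ u in t..(t + T), ((dif L (fun u => (PS b X u).re) u : ℝ) : ℂ) * ee (-fr x0) u =
      (∑ x ∈ TX X, ac b x / 2 * ka L (fr x) * ∫ u in t..(t + T), ee (fr x - fr x0) u) +
      ∑ x ∈ TX X, conj (ac b x) / 2 * ka L (-fr x) *
        ∫ u in t..(t + T), ee ((-fr x) - fr x0) u := by
    have h2 : ∀ u : ℝ, ((dif L (fun u => (PS b X u).re) u : ℝ) : ℂ) * ee (-fr x0) u =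
        (∑ x ∈ TX X, ac b x / 2 * ka L (fr x) * ee (fr x - fr x0) u) +
        ∑ x ∈ TX X, conj (ac b x) / 2 * ka L (-fr x) * ee ((-fr x) - fr x0) u := by
      intro u
      rw [dif_re_PS, add_mul, Finset.sum_mul, Finset.sum_mul]
      congr 1
      · refine Finset.sum_congr rfl fun x _ => ?_
        rw [mul_assoc, ← ee_add_left, sub_eq_add_neg]
      · refine Finset.sum_congr rfl fun x _ => ?_
        rw [mul_assoc, ← ee_add_left, sub_eq_add_neg]
    simp_rw [h2]
    rw [intervalIntegral.integral_add, intervalIntegral.integral_finsetSum,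
      intervalIntegral.integral_finsetSum]
    · simp_rw [intervalIntegral.integral_const_mul]
    · exact fun x _ => hi _ _
    · exact fun x _ => hi _ _
    · exact (continuous_finsetSum _ fun x _ =>
        continuous_const.mul (continuous_ee _)).intervalIntegrable _ _
    · exact (continuous_finsetSum _ fun x _ =>
        continuous_const.mul (continuous_ee _)).intervalIntegrable _ _
  have h3 : ‖∫ u in t..(t + T), ((dif L (fun u => (PS b X u).re) u : ℝ) : ℂ) * ee (-fr x0) u‖ ≤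
      ∫ u in t..(t + T), |dif L (fun u => (PS b X u).re) u| := by
    refine (intervalIntegral.norm_integral_le_integral_norm (by linarith)).trans (le_of_eq ?_)
    refine intervalIntegral.integral_congr fun u _ => ?_
    rw [norm_mul, norm_ee, mul_one, Complex.norm_real, Real.norm_eq_abs]
  rw [← Finset.add_sum_erase _ _ hx0] at h1
  have h4 : ∫ u in t..(t + T), ee (fr x0 - fr x0) u = (T : ℂ) := by
    simp_rw [sub_self, ee_zero_left]
    simp
  rw [h4] at h1
  have h5 : ‖∑ x ∈ (TX X).erase x0, ac b x / 2 * ka L (fr x) *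
      ∫ u in t..(t + T), ee (fr x - fr x0) u‖ ≤ C1 := by
    refine norm_sum_le_of_le _ fun x hx => ?_
    rw [norm_mul]
    refine mul_le_mul_of_nonneg_left (norm_integral_ee ?_ _ _) (norm_nonneg _)
    intro h
    exact (Finset.mem_erase.1 hx).1 (fr_injective (sub_eq_zero.1 h))
  have h6 : ‖∑ x ∈ TX X, conj (ac b x) / 2 * ka L (-fr x) *
      ∫ u in t..(t + T), ee ((-fr x) - fr x0) u‖ ≤ C2 := by
    refine norm_sum_le_of_le _ fun x hx => ?_
    rw [norm_mul]
    refine mul_le_mul_of_nonneg_left (norm_integral_ee ?_ _ _) (norm_nonneg _)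
    have h7 := fr_neg x
    have h8 := fr_neg x0
    intro h
    linarith
  have h7 : ‖ac b x0 / 2 * ka L (fr x0) * (T : ℂ)‖ = T * (‖ac b x0‖ / 2 * ‖ka L (fr x0)‖) := by
    rw [norm_mul, norm_mul, norm_div, Complex.norm_real, Real.norm_of_nonneg hT,
      RCLike.norm_ofNat]
    ring
  rw [← h7]
  have h8 : ac b x0 / 2 * ka L (fr x0) * (T : ℂ) =
      (∫ u in t..(t + T), ((dif L (fun u => (PS b X u).re) u : ℝ) : ℂ) * ee (-fr x0) u) -
      (∑ x ∈ (TX X).erase x0, ac b x / 2 * ka L (fr x) *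
        ∫ u in t..(t + T), ee (fr x - fr x0) u) -
      ∑ x ∈ TX X, conj (ac b x) / 2 * ka L (-fr x) *
        ∫ u in t..(t + T), ee ((-fr x) - fr x0) u := by
    rw [h1]
    ring
  rw [h8]
  refine (norm_sub_le _ _).trans ?_
  have h9 := norm_sub_le (∫ u in t..(t + T),
      ((dif L (fun u => (PS b X u).re) u : ℝ) : ℂ) * ee (-fr x0) u)
    (∑ x ∈ (TX X).erase x0, ac b x / 2 * ka L (fr x) *
        ∫ u in t..(t + T), ee (fr x - fr x0) u)
  linarith

lemma key' (b : PP → ℂ) {x0 : PP} (L : List ℝ) {X : ℕ} (hx0 : x0 ∈ TX X) :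
    ∃ C : ℝ, 0 ≤ C ∧ ∀ t T : ℝ, 0 ≤ T →
      ENNReal.ofReal (T * (‖ac b x0‖ / 2 * ‖ka L (fr x0)‖)) ≤ ENNReal.ofReal C +
        ∫⁻ u in Icc t (t + T), ENNReal.ofReal |dif L (fun u => (PS b X u).re) u| := by
  obtain ⟨C, hC, h⟩ := key b L hx0
  refine ⟨C, hC, fun t T hT => ?_⟩
  have hc : Continuous fun u => |dif L (fun u => (PS b X u).re) u| :=
    (continuous_dif_re b X L).abs
  have h1 : ∫⁻ u in Icc t (t + T), ENNReal.ofReal |dif L (fun u => (PS b X u).re) u| =
      ENNReal.ofReal (∫ u in t..(t + T), |dif L (fun u => (PS b X u).re) u|) := by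
    rw [intervalIntegral.integral_of_le (by linarith), ← integral_Icc_eq_integral_Ioc,
      ofReal_integral_eq_lintegral_ofReal]
    · exact hc.continuousOn.integrableOn_compact isCompact_Icc
    · exact Eventually.of_forall fun u => abs_nonneg _
  rw [h1, ← ENNReal.ofReal_add hC (intervalIntegral.integral_nonneg (by linarith)
    fun u _ => abs_nonneg _)]
  exact ENNReal.ofReal_le_ofReal (h t T hT)

/-- from unit intervals to long intervals -/
lemma cover {F : ℝ → ENNReal} {ε : ℝ} (hε : 0 ≤ ε)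
    (h : ∀ t : ℝ, ∫⁻ u in Icc t (t + 1), F u ≤ ENNReal.ofReal ε) (n : ℕ) (t : ℝ) :
    ∫⁻ u in Icc t (t + n), F u ≤ ENNReal.ofReal (n * ε) := by
  induction n with
  | zero => simp
  | succ n ih =>
    have h1 : Icc t (t + (n + 1 : ℕ)) ⊆ Icc t (t + n) ∪ Icc (t + n) (t + n + 1) := by
      intro u hu
      push_cast at hu
      rcases le_total u (t + n) with h2 | h2
      · exact Or.inl ⟨hu.1, h2⟩
      · exact Or.inr ⟨h2, by linarith [hu.2]⟩
    refine (lintegral_mono_set h1).trans ((lintegral_union_le _ _ _).trans ?_)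
    refine (add_le_add ih (h (t + n))).trans ?_
    rw [← ENNReal.ofReal_add (by positivity) hε]
    refine ENNReal.ofReal_le_ofReal (le_of_eq ?_)
    push_cast
    ring

lemma cover' {F : ℝ → ENNReal} {ε : ℝ} (hε : 0 ≤ ε)
    (h : ∀ t : ℝ, ∫⁻ u in Icc t (t + 1), F u ≤ ENNReal.ofReal ε) {T : ℝ} (hT : 0 ≤ T) (t : ℝ) :
    ∫⁻ u in Icc t (t + T), F u ≤ ENNReal.ofReal ((T + 1) * ε) := by
  have h1 : T ≤ ⌈T⌉₊ := Nat.le_ceil T
  have h2 : (⌈T⌉₊ : ℝ) < T + 1 := Nat.ceil_lt_add_one hT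
  refine (lintegral_mono_set (Icc_subset_Icc le_rfl (by linarith))).trans
    ((cover hε h ⌈T⌉₊ t).trans ?_)
  exact ENNReal.ofReal_le_ofReal (mul_le_mul_of_nonneg_right h2.le hε)

/-- the period of the Euler factors at `p` -/
noncomputable def per (p : Nat.Primes) : ℝ := 2 * Real.pi / Real.log (p : ℕ)

lemma log_prime_pos (p : Nat.Primes) : 0 < Real.log (p : ℕ) :=
  Real.log_pos (by have := two_le_prime p; linarith)

lemma per_pos (p : Nat.Primes) : 0 < per p := by
  unfold per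
  have := log_prime_pos p
  positivity

lemma ee_eq_one_iff (m a : ℝ) : ee m a = 1 ↔ ∃ n : ℤ, m * a = n * (2 * Real.pi) := by
  unfold ee
  rw [Complex.exp_eq_one_iff]
  constructor
  · rintro ⟨n, hn⟩
    refine ⟨n, ?_⟩
    have h1 : ((m * a : ℝ) : ℂ) = ((n * (2 * Real.pi) : ℝ) : ℂ) := by
      apply mul_right_cancel₀ I_ne_zero
      rw [hn]
      push_cast
      ring
    exact_mod_cast h1
  · rintro ⟨n, hn⟩
    refine ⟨n, ?_⟩
    rw [hn]
    push_cast
    ring

lemma pow_ne_pow {p q : Nat.Primes} (hpq : p ≠ q) {k : ℕ} (n : ℤ) :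
    ((k + 1 : ℕ) : ℝ) * Real.log (p : ℕ) ≠ n * Real.log (q : ℕ) := by
  intro h
  have hp := log_prime_pos p
  have hq := log_prime_pos q
  have hn : 0 < n := by
    by_contra hcon
    have h1 : (n : ℝ) ≤ 0 := by exact_mod_cast not_lt.1 hcon
    have h2 : (0 : ℝ) < ((k + 1 : ℕ) : ℝ) * Real.log (p : ℕ) := by positivity
    have h3 : (n : ℝ) * Real.log (q : ℕ) ≤ 0 := mul_nonpos_of_nonpos_of_nonneg h1 hq.le
    linarith
  obtain ⟨l, rfl⟩ := Int.eq_ofNat_of_zero_le hn.le
  have h1 : Real.log (((p : ℕ) : ℝ) ^ (k + 1)) = Real.log (((q : ℕ) : ℝ) ^ l) := by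
    rw [Real.log_pow, Real.log_pow]
    simpa using h
  have h2 : (((p : ℕ) : ℝ)) ^ (k + 1) = ((q : ℕ) : ℝ) ^ l :=
    Real.log_injOn_pos (Set.mem_Ioi.2 (pow_pos (prime_pos p) _))
      (Set.mem_Ioi.2 (pow_pos (prime_pos q) _)) h1
  have h3 : (p : ℕ) ^ (k + 1) = (q : ℕ) ^ l := by exact_mod_cast h2
  have h4 : (p : ℕ) ∣ (q : ℕ) := p.2.dvd_of_dvd_pow (h3 ▸ dvd_pow_self _ (Nat.succ_ne_zero k))
  exact hpq (Subtype.ext ((Nat.prime_dvd_prime_iff_eq p.2 q.2).1 h4))

lemma ka_ne {S : List Nat.Primes} {x0 : PP} (hx0 : x0.1 ∉ S) : ka (S.map per) (fr x0) ≠ 0 := by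
  unfold ka
  rw [Ne, List.prod_eq_zero_iff, List.map_map, List.mem_map]
  rintro ⟨p, hp, h⟩
  simp only [Function.comp_apply, sub_eq_zero] at h
  rw [ee_eq_one_iff] at h
  obtain ⟨n, hn⟩ := h
  have hne : x0.1 ≠ p := fun h => hx0 (h ▸ hp)
  refine pow_ne_pow (k := x0.2) hne (-n) ?_
  unfold fr per at hn
  have hlp := (log_prime_pos p).ne'
  have hpi := Real.pi_pos.ne'
  have h2 : ((x0.2 + 1 : ℕ) : ℝ) * Real.log (x0.1 : ℕ) = -n * Real.log (p : ℕ) := by
    field_simp at hn
    linarith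
  rw [h2]
  push_cast
  ring

theorem vanish {Φ : ℝ → ℝ} (hΦ : AEMeasurable Φ) {b : PP → ℂ}
    (happ : ∀ ε : ℝ, 0 < ε → ∃ X0 : ℕ, ∀ X : ℕ, X0 ≤ X → ∀ t : ℝ,
      ∫⁻ u in Icc t (t + 1), ENNReal.ofReal |Φ u - (PS b X u).re| ≤ ENNReal.ofReal ε)
    {S : Finset Nat.Primes} (hwin : Windows S Φ) {x0 : PP} (hx0 : x0.1 ∉ S) : b x0 = 0 := by
  classical
  by_contra hb0
  set L : List ℝ := S.toList.map per with hL
  have hLpos : ∀ a ∈ L, 0 ≤ a := by
    intro a ha
    rw [hL, List.mem_map] at ha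
    obtain ⟨p, _, rfl⟩ := ha
    exact (per_pos p).le
  have hlen : 0 ≤ len L := List.sum_nonneg hLpos
  have hka : ka L (fr x0) ≠ 0 := ka_ne (by simpa using hx0)
  have hac : ac b x0 ≠ 0 := by
    unfold ac
    refine mul_ne_zero hb0 ?_
    have h1 : wt 1 x0 ≠ 0 := by
      rw [wt_one]
      have := two_le_qq x0
      have h2 : (0 : ℝ) < qq x0 := by exact_mod_cast (by omega : 0 < qq x0)
      positivity
    exact_mod_cast h1
  set δ : ℝ := ‖ac b x0‖ / 2 * ‖ka L (fr x0)‖ with hδdef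
  have hδ : 0 < δ := by
    have h1 := norm_pos_iff.2 hac
    have h2 := norm_pos_iff.2 hka
    positivity
  set c : ℝ := 2 ^ L.length with hc
  have hc0 : 0 < c := by positivity
  set ε : ℝ := δ / (8 * c) with hεdef
  have hε : 0 < ε := by positivity
  obtain ⟨X0, hX0⟩ := happ ε hε
  set X : ℕ := max X0 (qq x0) with hX
  have hxX : x0 ∈ TX X := (mem_TX _ _).2 (le_max_right _ _)
  have hapX := hX0 X (le_max_left _ _)
  obtain ⟨C, hC, hkey⟩ := key' b L hxX
  obtain ⟨t, T, hRT, hT, h, hper, hint⟩ := hwin ε hε (4 * (C + δ * len L + c * ε) / δ + len L)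
  have hq0 : 0 ≤ 4 * (C + δ * len L + c * ε) / δ := by positivity
  have hT' : 0 ≤ T - len L := by linarith
  -- the decomposition
  have hmPS : Continuous fun u => (PS b X u).re := Complex.continuous_re.comp (continuous_PS b X)
  have hmh : ∀ p ∈ S, Measurable (h p) := fun p hp => (hper p hp).1
  have hmsum : AEMeasurable fun u => ∑ p ∈ S, h p u := by
    refine Measurable.aemeasurable ?_
    exact Finset.measurable_fun_sum _ fun p hp => hmh p hp
  have hdz : dif L (fun u => ∑ p ∈ S, h p u) = fun _ => 0 := by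
    rw [dif_sum]
    funext u
    refine Finset.sum_eq_zero fun p hp => ?_
    have h1 : dif L (h p) = fun _ => 0 := by
      refine dif_periodic (a := per p) ?_ (fun u => (hper p hp).2 u)
      rw [hL, List.mem_map]
      exact ⟨p, by simpa using hp, rfl⟩
    rw [h1]
  set f1 : ℝ → ℝ := fun u => (PS b X u).re - Φ u with hf1
  set f2 : ℝ → ℝ := fun u => Φ u - ∑ p ∈ S, h p u with hf2
  have hm1 : AEMeasurable f1 := hmPS.measurable.aemeasurable.sub hΦ
  have hm2 : AEMeasurable f2 := hΦ.sub hmsum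
  have hdec : dif L (fun u => (PS b X u).re) = fun u => dif L f1 u + dif L f2 u := by
    have h1 : (fun u => (PS b X u).re) = fun u => (f1 u + f2 u) + ∑ p ∈ S, h p u := by
      funext u
      simp only [hf1, hf2]
      ring
    rw [h1, dif_add, hdz, dif_add]
    funext u
    simp
  have hlen2 : t + (T - len L) + len L = t + T := by ring
  have e1 : ∫⁻ u in Icc t (t + (T - len L)), ENNReal.ofReal |dif L f1 u| ≤
      ENNReal.ofReal (c * ((T + 1) * ε)) := by
    refine (dif_lint hLpos hm1 t (T - len L)).trans ?_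
    rw [hlen2, ENNReal.ofReal_mul hc0.le]
    refine mul_le_mul' (le_of_eq ?_) ?_
    · rw [hc, ENNReal.ofReal_pow (by norm_num)]
      norm_num
    · refine cover' hε.le (fun s => ?_) hT.le t
      refine le_trans (le_of_eq ?_) (hapX s)
      refine lintegral_congr fun u => ?_
      simp only [hf1]
      rw [abs_sub_comm]
  have e2 : ∫⁻ u in Icc t (t + (T - len L)), ENNReal.ofReal |dif L f2 u| ≤
      ENNReal.ofReal (c * (ε * T)) := by
    refine (dif_lint hLpos hm2 t (T - len L)).trans ?_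
    rw [hlen2, ENNReal.ofReal_mul hc0.le]
    refine mul_le_mul' (le_of_eq ?_) hint
    rw [hc, ENNReal.ofReal_pow (by norm_num)]
    norm_num
  have e3 : ∫⁻ u in Icc t (t + (T - len L)), ENNReal.ofReal |dif L (fun u => (PS b X u).re) u| ≤
      ENNReal.ofReal (c * ((T + 1) * ε) + c * (ε * T)) := by
    rw [hdec, ENNReal.ofReal_add (by positivity) (by positivity)]
    refine le_trans ?_ (add_le_add e1 e2)
    have hmm : AEMeasurable (fun u => ENNReal.ofReal |dif L f1 u|)
        (volume.restrict (Icc t (t + (T - len L)))) :=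
      (ENNReal.measurable_ofReal.comp_aemeasurable
        (measurable_norm.comp_aemeasurable (aem_dif hm1))).restrict
    rw [← lintegral_add_left' hmm]
    refine lintegral_mono fun u => ?_
    rw [← ENNReal.ofReal_add (abs_nonneg _) (abs_nonneg _)]
    exact ENNReal.ofReal_le_ofReal (abs_add_le _ _)
  have e4 := (hkey t (T - len L) hT').trans (add_le_add le_rfl e3)
  rw [← ENNReal.ofReal_add hC (by positivity), ENNReal.ofReal_le_ofReal_iff (by positivity)] at e4
  -- (T - len) δ ≤ C + c (T+1) ε + c ε T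
  have h8 : c * ε = δ / 8 := by
    rw [hεdef]
    field_simp
  have h9 : (T - len L) * δ ≤ C + (δ / 8) * (T + 1) + (δ / 8) * T := by
    have h10 : c * ((T + 1) * ε) = (c * ε) * (T + 1) := by ring
    have h11 : c * (ε * T) = (c * ε) * T := by ring
    rw [h10, h11, h8, ← hδdef] at e4
    linarith
  have h12 : 4 * (C + δ * len L + c * ε) ≤ δ * T := by
    have h13 : 4 * (C + δ * len L + c * ε) / δ ≤ T := by linarith
    rw [div_le_iff₀ hδ] at h13
    linarith
  rw [h8] at h12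
  nlinarith

end Pool.Agent.U597.EW
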