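import Pool.Agent.N881.RP.Main
import Pool.Agent.U597.EW.Win

/-!
# The Euler factors above a rational prime
-/

set_option autoImplicit false

namespace Pool.Agent.U597.EW

open Complex MeasureTheory Filter Topology Set NumberField IsDedekindDomain Polynomial
open Pool.Agent.TH339.MP Pool.Agent.N881.RP Pool.Agent.R409.EV
open Pool.Agent.TH958.BV (IsEulerSystem localFactor LFun edgePoint angle)

variable {K : Type} [Field K] [NumberField K] {n : ℕ}
  {X : Set (MvPolynomial (Fin n) (𝓞 K))} {d i N : ℕ} {B : HeightOneSpectrum (𝓞 K) → ℂ[X]}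

lemma mem_iff_pr (p : Nat.Primes) (v : HeightOneSpectrum (𝓞 K)) :
    ((p : ℕ) : 𝓞 K) ∈ v.asIdeal ↔ pr v = p := by
  constructor
  · intro h
    by_contra hne
    have h1 : (((pr v : ℕ)) : 𝓞 K) ∈ v.asIdeal := pr_mem v
    have hco : Nat.Coprime (pr v : ℕ) (p : ℕ) :=
      (Nat.coprime_primes (pr v).2 p.2).2 fun h => hne (Subtype.ext h)
    have h2 : IsCoprime (((pr v : ℕ) : ℤ)) ((p : ℕ) : ℤ) := Nat.isCoprime_iff_coprime.2 hco
    obtain ⟨a, b, hab⟩ := h2
    apply v.isPrime.ne_top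
    rw [Ideal.eq_top_iff_one]
    have h3 : (1 : 𝓞 K) = (a : 𝓞 K) * ((pr v : ℕ) : 𝓞 K) + (b : 𝓞 K) * ((p : ℕ) : 𝓞 K) := by
      have := congrArg (Int.cast : ℤ → 𝓞 K) hab
      push_cast at this
      exact this.symm
    rw [h3]
    exact v.asIdeal.add_mem (v.asIdeal.mul_mem_left _ h1) (v.asIdeal.mul_mem_left _ h)
  · rintro rfl
    exact pr_mem v

lemma above_eq (B : HeightOneSpectrum (𝓞 K) → ℂ[X]) (p : Nat.Primes) (s : ℂ) :
    above B p s = ∏ v ∈ Sp p, localFactor B v s := by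
  unfold above
  rw [← finprod_mem_coe_finset]
  refine finprod_congr fun v => ?_
  have h1 : ((p : ℕ) : 𝓞 K) ∈ v.asIdeal ↔ v ∈ ((Sp p : Finset (HeightOneSpectrum (𝓞 K))) : Set _) := by
    rw [mem_iff_pr, Finset.mem_coe, mem_Sp]
  simp only [h1]

open Classical in
/-- the bad factor, `1` at the good primes -/
noncomputable def bfac (hB : IsEulerSystem X d i N B) (v : HeightOneSpectrum (𝓞 K)) (s : ℂ) : ℂ :=
  if v ∈ bad hB then ((B v).eval ((nm v : ℂ) ^ (-(s + (i : ℂ) / 2))))⁻¹ else 1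

lemma lv_zero_of_bad (hB : IsEulerSystem X d i N B) {v : HeightOneSpectrum (𝓞 K)}
    (hv : v ∈ bad hB) (s : ℂ) : lv (be X d i N B) v s = 0 := by
  have : ∀ j, be X d i N B v j = 0 := by
    intro j
    unfold be
    rw [dif_neg (not_good_of_mem hB hv)]
  unfold lv
  simp [this]

lemma factor_eq (hB : IsEulerSystem X d i N B) (v : HeightOneSpectrum (𝓞 K)) {s : ℂ}
    (hs : 1 ≤ s.re) : localFactor B v (s + (i : ℂ) / 2) =
      bfac hB v s * Complex.exp (lv (be X d i N B) v s) := by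
  classical
  by_cases hv : v ∈ bad hB
  · rw [lv_zero_of_bad hB hv, Complex.exp_zero, mul_one]
    unfold bfac localFactor
    rw [if_pos hv]
    rfl
  · unfold bfac
    rw [if_neg hv, one_mul, factor_good (good_of_notMem hB hv), exp_lv (norm_be X d i N B) v hs]

lemma above_split (hB : IsEulerSystem X d i N B) (p : Nat.Primes) {s : ℂ} (hs : 1 ≤ s.re) :
    above B p (s + (i : ℂ) / 2) = (∏ v ∈ Sp p, bfac hB v s) *
      Complex.exp (∑ v ∈ Sp p, lv (be X d i N B) v s) := by
  rw [above_eq, Complex.exp_sum, ← Finset.prod_mul_distrib]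
  exact Finset.prod_congr rfl fun v _ => factor_eq hB v hs

/-- the rational primes below the bad primes -/
noncomputable def badP (hB : IsEulerSystem X d i N B) : Finset Nat.Primes := by
  classical exact (bad hB).image pr

lemma mem_badP (hB : IsEulerSystem X d i N B) {v : HeightOneSpectrum (𝓞 K)} (hv : v ∈ bad hB) :
    pr v ∈ badP hB := by
  classical
  unfold badP
  exact Finset.mem_image_of_mem _ hv

lemma DD_inv (hB : IsEulerSystem X d i N B) {S : Finset Nat.Primes} (hS : badP hB ⊆ S) (s : ℂ) :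
    (DD hB s)⁻¹ = ∏ p ∈ S, ∏ v ∈ (Sp p : Finset (HeightOneSpectrum (𝓞 K))), bfac hB v s := by
  classical
  unfold DD
  rw [← Finset.prod_inv_distrib]
  rw [← Finset.prod_fiberwise_of_maps_to (s := bad hB) (t := S) (g := pr)
    (fun v hv => hS (mem_badP hB hv))]
  refine Finset.prod_congr rfl fun p _ => ?_
  have h1 : ∏ v ∈ (Sp p : Finset (HeightOneSpectrum (𝓞 K))), bfac hB v s =
      ∏ v ∈ (Sp p : Finset (HeightOneSpectrum (𝓞 K))) with v ∈ bad hB,
        ((B v).eval ((nm v : ℂ) ^ (-(s + (i : ℂ) / 2))))⁻¹ := by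
    rw [Finset.prod_filter]
    exact Finset.prod_congr rfl fun v _ => rfl
  rw [h1]
  refine Finset.prod_congr ?_ fun v _ => rfl
  ext v
  simp only [Finset.mem_filter, mem_Sp]
  tauto

lemma L_split (hB : IsEulerSystem X d i N B) {S : Finset Nat.Primes} (hS : badP hB ⊆ S) {s : ℂ}
    (hs : 1 < s.re) : LFun B (s + (i : ℂ) / 2) = (∏ p ∈ S, above B p (s + (i : ℂ) / 2)) *
      Complex.exp (FF (bb (be X d i N B)) s -
        ∑ p ∈ S, ∑ v ∈ (Sp p : Finset (HeightOneSpectrum (𝓞 K))), lv (be X d i N B) v s) := by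
  have h1 : ∏ p ∈ S, above B p (s + (i : ℂ) / 2) = (DD hB s)⁻¹ *
      Complex.exp (∑ p ∈ S, ∑ v ∈ (Sp p : Finset (HeightOneSpectrum (𝓞 K))),
        lv (be X d i N B) v s) := by
    rw [DD_inv hB hS, Complex.exp_sum, ← Finset.prod_mul_distrib]
    exact Finset.prod_congr rfl fun p _ => above_split hB p hs.le
  rw [LFun_eq hB hs, h1, mul_assoc, ← Complex.exp_add]
  congr 2
  ring

lemma nm_periodic (v : HeightOneSpectrum (𝓞 K)) (s : ℂ) :
    (nm v : ℂ) ^ (-(s + (per (pr v) : ℂ) * I)) = (nm v : ℂ) ^ (-s) := by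
  have h2 := Pool.Agent.TH339.MP.two_le_nm v
  have hq : (nm v : ℂ) ≠ 0 := Nat.cast_ne_zero.2 (by omega)
  rw [neg_add, cpow_add _ _ hq]
  have h1 : (nm v : ℂ) ^ (-((per (pr v) : ℂ) * I)) = 1 := by
    rw [cpow_def_of_ne_zero hq, Complex.exp_eq_one_iff]
    refine ⟨-(dg v : ℤ), ?_⟩
    have h3 : Complex.log (nm v : ℂ) = ((dg v * Real.log (pr v : ℕ) : ℝ) : ℂ) := by
      rw [← Complex.natCast_log, nm_eq, Nat.cast_pow, Real.log_pow]
    rw [h3]
    have h4 : (per (pr v) : ℝ) * Real.log (pr v : ℕ) = 2 * Real.pi := by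
      unfold per
      have := (log_prime_pos (pr v)).ne'
      field_simp
    have h5 : ((dg v * Real.log (pr v : ℕ) : ℝ) : ℂ) * -((per (pr v) : ℂ) * I) =
        -(dg v : ℂ) * (((per (pr v) * Real.log (pr v : ℕ) : ℝ) : ℂ) * I) := by
      push_cast
      ring
    rw [h5, h4]
    push_cast
    ring
  rw [h1, mul_one]

lemma bfac_periodic (hB : IsEulerSystem X d i N B) {p : Nat.Primes} {v : HeightOneSpectrum (𝓞 K)}
    (hv : v ∈ (Sp p : Finset (HeightOneSpectrum (𝓞 K)))) (s : ℂ) :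
    bfac hB v (s + (per p : ℂ) * I) = bfac hB v s := by
  rw [mem_Sp] at hv
  subst hv
  unfold bfac
  have h1 : s + (per (pr v) : ℂ) * I + (i : ℂ) / 2 = (s + (i : ℂ) / 2) + (per (pr v) : ℂ) * I := by
    ring
  rw [h1, nm_periodic]

lemma above_periodic (B : HeightOneSpectrum (𝓞 K) → ℂ[X]) (p : Nat.Primes) (s : ℂ) :
    above B p (s + (per p : ℂ) * I) = above B p s := by
  rw [above_eq, above_eq]
  refine Finset.prod_congr rfl fun v hv => ?_
  rw [mem_Sp] at hv
  subst hv
  unfold localFactor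
  have h1 := nm_periodic v s
  unfold nm at h1
  rw [h1]

lemma continuous_eval (B : HeightOneSpectrum (𝓞 K) → ℂ[X]) (v : HeightOneSpectrum (𝓞 K)) :
    Continuous fun s : ℂ => (B v).eval ((nm v : ℂ) ^ (-s)) := by
  have h2 := Pool.Agent.TH339.MP.two_le_nm v
  have hq : (nm v : ℂ) ≠ 0 := Nat.cast_ne_zero.2 (by omega)
  exact (B v).continuous.comp (continuous_neg.const_cpow (Or.inl hq))

lemma measurable_above (B : HeightOneSpectrum (𝓞 K) → ℂ[X]) (p : Nat.Primes) :
    Measurable (above B p) := by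
  have h1 : above B p = fun s => ∏ v ∈ Sp p, localFactor B v s := funext fun s => above_eq B p s
  rw [h1]
  refine Finset.measurable_fun_prod _ fun v _ => ?_
  exact (continuous_eval B v).measurable.inv

lemma measurable_bfac (hB : IsEulerSystem X d i N B) (v : HeightOneSpectrum (𝓞 K)) :
    Measurable (bfac hB v) := by
  classical
  unfold bfac
  split_ifs
  · exact ((continuous_eval B v).comp (continuous_id.add continuous_const)).measurable.inv
  · exact measurable_const

lemma meromorphic_above (B : HeightOneSpectrum (𝓞 K) → ℂ[X]) (p : Nat.Primes) (c s : ℂ) :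
    MeromorphicAt (fun s => above B p (s + c)) s := by
  have h1 : (fun s => above B p (s + c)) = fun s => ∏ v ∈ Sp p, localFactor B v (s + c) :=
    funext fun s => above_eq B p _
  rw [h1]
  refine MeromorphicAt.fun_prod fun v _ => ?_
  unfold localFactor
  refine MeromorphicAt.inv ?_
  have h2 : AnalyticAt ℂ (fun s : ℂ => (nm v : ℂ) ^ (-(s + c))) s :=
    Pool.Agent.TH345.ET.analytic_cpow (Pool.Agent.TH339.MP.two_le_nm v) _ _
      (analyticAt_id.add analyticAt_const).neg
  have h3 := AnalyticAt.aeval_polynomial (A := ℂ) h2 (B v)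
  have h4 : (fun x : ℂ => (Polynomial.aeval ((nm v : ℂ) ^ (-(x + c)))) (B v)) =
      fun x => (B v).eval ((nm v : ℂ) ^ (-(x + c))) := by
    funext x
    simp [Polynomial.aeval_def, Polynomial.eval₂_eq_eval_map]
  rw [h4] at h3
  exact h3.meromorphicAt

end Pool.Agent.U597.EW
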